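import Pool.Agent.MP_961719_gt.Main

set_option autoImplicit false

/-!
# MP_961719_gt, Q1: the bound `2 ^ ℵ₁` in ZFC

Outline of the proof (`Pool/Agent/MP_961719_gt/`).

* `Pattern.lean`: a separately continuous real pairing of a compact space and a Lindelöf space
  contains no pattern of type `ω₁`.
* `Good.lean`: hence, for pairs `(D, E)` of sets of points and functions closed under countable
  matching, the values `f y` are determined by countably many members of `E`, and `E` defines a
  retraction of `X` onto the closure of `D`.
* `Stable.lean`: for increasing chains of such pairs of length `ω₂` the closure of the union is the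
  union of the closures (a pressing down argument that produces a pattern).
* `Chain.lean`, `Tame.lean`: chains of length `ω₂` of pairs of size `2 ^ ℵ₁` answering all requests
  give a point with a `G_{ω₁}` set around it in the closure of a set of size `2 ^ ℵ₁`, and, if all
  points are of this kind, a dense set of size `2 ^ ℵ₁`.
* `PiChar.lean`: some point has a countable local pi-base.
* `Main.lean`: homogeneity gives `|X| ≤ |D| ^ ℵ₀`.
-/

namespace Pool.Agent.Results.MP_961719_gt.BoundTwoPowAlephOne

universe u

/-- Every homogeneous compact set of continuous real functions on a Lindelöf space, with the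
topology of pointwise convergence, has at most `2 ^ ℵ₁` elements. -/
theorem result (Y : Type u) [TopologicalSpace Y] [LindelofSpace Y] (X : Set (Y → ℝ))
    (hX : ∀ f ∈ X, Continuous f) (hc : IsCompact X)
    (hom : ∀ x y : X, ∃ h : X ≃ₜ X, h x = y) :
    Cardinal.mk X ≤ 2 ^ Cardinal.aleph 1 :=
  Pool.MP_961719_gt.mk_le_two_pow_aleph_one Y X hX hc hom

end Pool.Agent.Results.MP_961719_gt.BoundTwoPowAlephOne
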