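import Pool.Agent.MP_961719_gt.Graph

set_option autoImplicit false

/-!
# MP_961719_gt, Q1: the structure of a counterexample, and classes without counterexamples

Let `Y` be a Lindelöf space and `X` a homogeneous compact subspace of `C_p(Y)` with more than `𝔠`
points.  Outline of the proof (`Pool/Agent/MP_961719_gt/`).

* `Graph.lean`, `exists_pinned`: if the differences `x ↦ x(y) - x(y')`, `(y, y') ∈ E`, form a
  Lindelöf family, then there are a countable set `R ⊆ X` and a nonempty `G_δ`-set `H ⊆ X` such that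
  `y = y'` on `R` implies `y = y'` on `H` for `(y, y') ∈ E`; otherwise there is a pattern of type
  `ω₁`.
* `H` is not in the closure of a set of size `≤ 𝔠` (`GDeltaCovers`).
* `Struct.lean`: a chain of length `𝔠⁺` of pairs closed under countable matching, a pressing down
  argument for the supports and for maximal families of bad pairs, and the absence of patterns give
  `𝔠⁺` points `z i` of `H` and `y i` of `Y` such that the value of `z i` at `y j` is near `m` only
  for `i = j`, all `y i` agree on `R`, and the sets where `y i` is near `m` are point-countable on a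
  `G_δ`-set which contains all `z i`.
-/

namespace Pool.Agent.Results.MP_961719_gt.Counterexamples

universe u

open Cardinal Set

/-- Let `Y` be a Lindelöf space and `X` a homogeneous compact set of continuous real functions on
`Y` with the topology of pointwise convergence. -/
theorem result (Y : Type u) [TopologicalSpace Y] [LindelofSpace Y] (X : Set (Y → ℝ))
    (hX : ∀ x ∈ X, Continuous x) (hc : IsCompact X)
    (hom : ∀ x y : X, ∃ h : X ≃ₜ X, h x = y) :
    (continuum < #X → ∀ G : Set X, IsGδ G → G.Nonempty → ∀ E : Set (Y × Y),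
      IsLindelof {g : X → ℝ | ∃ p ∈ E, g = fun x => x.1 p.1 - x.1 p.2} →
      ∃ F ⊆ G, IsGδ F ∧ ∃ (I : Type u) (z : I → X) (y : I → Y) (m ε : ℝ),
        continuum < #I ∧ 0 < ε ∧ (∀ i, z i ∈ F) ∧ (∀ i, (z i).1 (y i) = m) ∧
        (∀ i j, i ≠ j → ε ≤ |(z i).1 (y j) - m|) ∧
        (∀ x ∈ F, {i | |x.1 (y i) - m| < ε}.Countable) ∧
        ∀ y' ∈ closure (range y), ∀ i j, (y i, y') ∈ E → (y j, y') ∈ E → i = j) ∧
    ((∀ D : Set X, DiscreteTopology D → #D ≤ continuum) → #X ≤ continuum) ∧
    ((∀ D : Set Y, DiscreteTopology D → #D ≤ continuum) → #X ≤ continuum) ∧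
    ((∃ (M : Type u) (f : Y → M), #M ≤ continuum ∧ IsLindelof {p : Y × Y | f p.1 = f p.2}) →
      #X ≤ continuum) ∧
    ((∃ K : Set Y, IsLindelof ((Set.univ : Set Y) ×ˢ K) ∧
      ∀ W : Set Y, IsOpen W → K ⊆ W → #(Wᶜ : Set Y) ≤ continuum) → #X ≤ continuum) ∧
    ((∃ _ : AddCommGroup Y, ∀ x ∈ X, ∀ y y' : Y, x (y + y') = x y + x y') →
      #X ≤ continuum) := by
  have : CompactSpace X := isCompact_iff_compactSpace.mp hc
  have he := Pool.MP_961719_gt.pairing_eval X hX
  have hsep : ∀ x x' : X, (∀ y, x.1 y = x'.1 y) → x = x' := fun x x' h =>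
    Subtype.ext (funext h)
  have main : continuum < #X → ∀ G : Set X, IsGδ G → G.Nonempty → ∀ E : Set (Y × Y),
      IsLindelof {g : X → ℝ | ∃ p ∈ E, g = fun x => x.1 p.1 - x.1 p.2} →
      ∃ F ⊆ G, IsGδ F ∧ ∃ (I : Type u) (z : I → X) (y : I → Y) (m ε : ℝ),
        continuum < #I ∧ 0 < ε ∧ (∀ i, z i ∈ F) ∧ (∀ i, (z i).1 (y i) = m) ∧
        (∀ i j, i ≠ j → ε ≤ |(z i).1 (y j) - m|) ∧
        (∀ x ∈ F, {i | |x.1 (y i) - m| < ε}.Countable) ∧
        ∀ y' ∈ closure (range y), ∀ i j, (y i, y') ∈ E → (y j, y') ∈ E → i = j :=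
    fun hcard G hG hGne E hE =>
      Pool.MP_961719_gt.exists_independent he hsep hom hcard hG hGne E hE
  -- the family for a graph
  have main2 : continuum < #X → ∀ E : Set (Y × Y),
      IsLindelof {g : X → ℝ | ∃ p ∈ E, g = fun x => x.1 p.1 - x.1 p.2} →
      ∃ (I : Type u) (z : I → X) (y : I → Y) (m ε : ℝ), continuum < #I ∧ 0 < ε ∧
        (∀ i, (z i).1 (y i) = m) ∧
        (∀ i j, i ≠ j → ε ≤ |(z i).1 (y j) - m|) ∧
        ∀ y' ∈ closure (range y), ∀ i j, (y i, y') ∈ E → (y j, y') ∈ E → i = j := by
    intro hcard E hE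
    have hne : Nonempty X := by
      by_contra h
      rw [not_nonempty_iff] at h
      rw [mk_eq_zero] at hcard
      exact absurd hcard (not_lt.mpr zero_le)
    obtain ⟨-, -, -, I, z, y, m, ε, h1, h2, -, h4, h5, -, h6⟩ :=
      main hcard Set.univ IsGδ.univ univ_nonempty E hE
    exact ⟨I, z, y, m, ε, h1, h2, h4, h5, h6⟩
  have two : ∀ I : Type u, continuum < #I → ∃ i j : I, i ≠ j := by
    intro I hI
    have h1 : (1 : Cardinal) < #I := (one_lt_aleph0.trans aleph0_lt_continuum).trans hI
    rw [one_lt_iff_nontrivial] at h1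
    exact exists_pair_ne I
  have himg : ∀ E : Set (Y × Y), IsLindelof E →
      IsLindelof {g : X → ℝ | ∃ p ∈ E, g = fun x => x.1 p.1 - x.1 p.2} := by
    intro E hE
    have hcont : Continuous fun (p : Y × Y) (x : X) => x.1 p.1 - x.1 p.2 :=
      continuous_pi fun x => ((hX x.1 x.2).comp continuous_fst).sub
        ((hX x.1 x.2).comp continuous_snd)
    have := hE.image hcont
    convert this using 1
    ext g
    constructor
    · rintro ⟨p, hp, rfl⟩
      exact ⟨p, hp, rfl⟩
    · rintro ⟨p, hp, rfl⟩
      exact ⟨p, hp, rfl⟩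
  refine ⟨main, fun hD => ?_, fun hD => ?_, fun hM => ?_, fun hK => ?_, fun hadd => ?_⟩
  · by_contra hcon
    obtain ⟨I, z, y, m, ε, h1, h2, h4, h5, -⟩ := main2 (not_le.mp hcon) ∅ (himg ∅ isLindelof_empty)
    have hinj : Function.Injective z := by
      intro i j hij
      by_contra hne
      have h7 := h5 i j hne
      rw [hij, h4 j, sub_self, abs_zero] at h7
      exact absurd h7 (not_le.mpr h2)
    have hdisc : DiscreteTopology (range z) := by
      rw [discreteTopology_subtype_iff']
      rintro _ ⟨i, rfl⟩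
      refine ⟨{x | |x.1 (y i) - m| < ε},
        isOpen_lt (((he.cx (y i)).sub continuous_const).abs) continuous_const, ?_⟩
      ext x
      constructor
      · rintro ⟨hx, j, rfl⟩
        by_contra hne
        have hji : j ≠ i := fun h => hne (by rw [h]; rfl)
        exact absurd hx (not_lt.mpr (h5 j i hji))
      · rintro rfl
        refine ⟨?_, i, rfl⟩
        show |(z i).1 (y i) - m| < ε
        rw [h4 i, sub_self, abs_zero]
        exact h2
    have h8 := hD (range z) hdisc
    rw [mk_range_eq z hinj] at h8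
    exact absurd h8 (not_le.mpr h1)
  · by_contra hcon
    obtain ⟨I, z, y, m, ε, h1, h2, h4, h5, -⟩ := main2 (not_le.mp hcon) ∅ (himg ∅ isLindelof_empty)
    have hinj : Function.Injective y := by
      intro i j hij
      by_contra hne
      have h7 := h5 i j hne
      rw [← hij, h4 i, sub_self, abs_zero] at h7
      exact absurd h7 (not_le.mpr h2)
    have hdisc : DiscreteTopology (range y) := by
      rw [discreteTopology_subtype_iff']
      rintro _ ⟨i, rfl⟩
      refine ⟨{w | |(z i).1 w - m| < ε},
        isOpen_lt (((he.cy (z i)).sub continuous_const).abs) continuous_const, ?_⟩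
      ext w
      constructor
      · rintro ⟨hw, j, rfl⟩
        by_contra hne
        have hij : i ≠ j := fun h => hne (by rw [h]; rfl)
        exact absurd hw (not_lt.mpr (h5 i j hij))
      · rintro rfl
        refine ⟨?_, i, rfl⟩
        show |(z i).1 (y i) - m| < ε
        rw [h4 i, sub_self, abs_zero]
        exact h2
    have h8 := hD (range y) hdisc
    rw [mk_range_eq y hinj] at h8
    exact absurd h8 (not_le.mpr h1)
  · by_contra hcon
    obtain ⟨M, f, hM, hL⟩ := hM
    obtain ⟨I, z, y, m, ε, h1, -, -, -, h6⟩ := main2 (not_le.mp hcon) _ (himg _ hL)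
    have hninj : ¬ Function.Injective (fun i => f (y i)) := fun h =>
      absurd ((mk_le_of_injective h).trans hM) (not_le.mpr h1)
    rw [Function.not_injective_iff] at hninj
    obtain ⟨i, j, hij, hne⟩ := hninj
    exact hne (h6 (y j) (subset_closure ⟨j, rfl⟩) i j hij rfl)
  · by_contra hcon
    obtain ⟨K, hL, hK⟩ := hK
    obtain ⟨I, z, y, m, ε, h1, h2, h4, h5, h6⟩ := main2 (not_le.mp hcon) _ (himg _ hL)
    have hinj : Function.Injective y := by
      intro i j hij
      by_contra hne
      have h7 := h5 i j hne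
      rw [← hij, h4 i, sub_self, abs_zero] at h7
      exact absurd h7 (not_le.mpr h2)
    have hdisj : K ⊆ (closure (range y))ᶜ := by
      intro k hk hkcl
      obtain ⟨i, j, hij⟩ := two I h1
      exact hij (h6 k hkcl i j ⟨mem_univ _, hk⟩ ⟨mem_univ _, hk⟩)
    have h8 := hK _ isClosed_closure.isOpen_compl hdisj
    rw [compl_compl] at h8
    have h9 := mk_le_mk_of_subset (subset_closure (s := range y))
    rw [mk_range_eq y hinj] at h9
    exact absurd (h9.trans h8) (not_le.mpr h1)
  · by_contra hcon
    obtain ⟨_, hadd⟩ := hadd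
    have hE : IsLindelof {g : X → ℝ | ∃ p ∈ (Set.univ : Set (Y × Y)),
        g = fun x => x.1 p.1 - x.1 p.2} := by
      have hcont : Continuous fun (y : Y) (x : X) => x.1 y :=
        continuous_pi fun x => hX x.1 x.2
      have := (isLindelof_univ (X := Y)).image hcont
      convert this using 1
      ext g
      constructor
      · rintro ⟨p, -, rfl⟩
        refine ⟨p.1 - p.2, mem_univ _, ?_⟩
        funext x
        have h1 := hadd x.1 x.2 (p.1 - p.2) p.2
        rw [sub_add_cancel] at h1
        show x.1 (p.1 - p.2) = x.1 p.1 - x.1 p.2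
        linarith
      · rintro ⟨y, -, rfl⟩
        refine ⟨(y, 0), mem_univ _, ?_⟩
        funext x
        have h1 := hadd x.1 x.2 0 0
        rw [add_zero] at h1
        show x.1 y = x.1 y - x.1 0
        linarith
    obtain ⟨I, z, y, m, ε, h1, -, -, -, h6⟩ := main2 (not_le.mp hcon) _ hE
    obtain ⟨i, j, hij⟩ := two I h1
    exact hij (h6 (y j) (subset_closure ⟨j, rfl⟩) i j (mem_univ _) (mem_univ _))

end Pool.Agent.Results.MP_961719_gt.Counterexamples
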