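import Pool.Agent.MP_961719_gt.Main
import Pool.Agent.MP_961719_gt.Tree

set_option autoImplicit false

/-!
# MP_961719_gt, Q1: covers by `G_δ`-sets, and the shape of a counterexample

Outline of the proof (`Pool/Agent/MP_961719_gt/`).

* `Ramsey.lean`: for a colouring of the pairs of a well-ordered set, cofinal in which the initial
  segments have at least `𝔠` elements, with countably many colours there is an increasing homogeneous
  sequence of type `ω₁` with a point above it.
* `Cover.lean`: from a family of pieces `{p | p = x on U x}` (`U x` a countable set of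
  coordinates) in which no `𝔠` pieces cover, a chain of length `𝔠⁺` of pairs
  closed under countable matching, a pressing down argument, and the colouring above give a
  pattern of type `ω₁` in the pairing, which `Pattern.lean` excludes.
* If a nonempty `G_δ`-set `G` is in the closure of a set of size `≤ 𝔠` in a homogeneous `X`, the
  homeomorphic copies of `G` cover `X`; hence `X` has a dense set of size `≤ 𝔠`, and a point of
  countable pi-character (`PiChar.lean`) gives `|X| ≤ 𝔠`.
* `Tree.lean`: compact spaces without `G_δ`-points have at least `2 ^ ℵ₁` points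
  (Čech and Pospíšil).
-/

namespace Pool.Agent.Results.MP_961719_gt.GDeltaCovers

universe u

open Cardinal Set

/-- Let `Y` be a Lindelöf space and `X` a compact set of continuous real functions on `Y` with the
topology of pointwise convergence. Every cover of `X` by `G_δ`-sets has a subcover of size at most
`𝔠`. If `X` is homogeneous, then either `X` has at most `𝔠` points, or it has exactly `2 ^ ℵ₁`
points and no nonempty `G_δ`-set of `X` is contained in the closure of a set of size `≤ 𝔠`. -/
theorem result (Y : Type u) [TopologicalSpace Y] [LindelofSpace Y] (X : Set (Y → ℝ))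
    (hX : ∀ f ∈ X, Continuous f) (hc : IsCompact X) :
    (∀ 𝒰 : Set (Set X), (∀ U ∈ 𝒰, IsGδ U) → ⋃₀ 𝒰 = Set.univ →
      ∃ 𝒱 ⊆ 𝒰, #𝒱 ≤ continuum ∧ ⋃₀ 𝒱 = Set.univ) ∧
    ((∀ x y : X, ∃ h : X ≃ₜ X, h x = y) →
      #X ≤ continuum ∨
        (#X = 2 ^ Cardinal.aleph 1 ∧
          ∀ G A : Set X, IsGδ G → G.Nonempty → #A ≤ continuum → ¬ G ⊆ closure A)) := by
  have : CompactSpace X := isCompact_iff_compactSpace.mp hc
  have he := Pool.MP_961719_gt.pairing_eval X hX
  have hsep : ∀ x x' : X, (∀ y, x.1 y = x'.1 y) → x = x' := fun x x' h =>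
    Subtype.ext (funext h)
  refine ⟨fun 𝒰 h𝒰 hcov => Pool.MP_961719_gt.exists_gdelta_subcover he hsep 𝒰 h𝒰 hcov, ?_⟩
  intro hom
  by_cases hG : ∃ G A : Set X, IsGδ G ∧ G.Nonempty ∧ #A ≤ continuum ∧ G ⊆ closure A
  · obtain ⟨G, A, h1, h2, h3, h4⟩ := hG
    exact Or.inl (Pool.MP_961719_gt.mk_le_of_gdelta he hsep hom h1 h2 h3 h4)
  · push Not at hG
    rcases isEmpty_or_nonempty X with hE | hE
    · left
      rw [mk_eq_zero]
      exact zero_le
    · right
      refine ⟨le_antisymm (Pool.MP_961719_gt.mk_le_two_pow_aleph_one Y X hX hc hom) ?_, hG⟩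
      refine Pool.MP_961719_gt.two_power_aleph_one_le fun x hx => ?_
      refine hG {x} {x} hx (singleton_nonempty x) ?_ subset_closure
      rw [mk_singleton]
      exact one_le_aleph0.trans aleph0_le_continuum

end Pool.Agent.Results.MP_961719_gt.GDeltaCovers
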